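import Pool.Agent.Helper94.GA.Goals

/-!
# Packet FIN1 of the growth gap (MP_d69e80_al): from the pattern to entropies
-/

namespace Pool.Agent.Helper13.GA

open Finset Pointwise
open Pool.Agent.Helper11.Gap
open Pool.Agent.Helper94.GA

universe u v w

theorem ent_eq_of_fiber {Ω : Type u} {X : Type v} {Y : Type w} [Fintype Ω] (f : Ω → X)
    (g : Ω → Y) (h : ∀ ω ω', f ω' = f ω ↔ g ω' = g ω) : ent f = ent g := by
  unfold ent
  have : ∀ ω : Ω, Nat.card {ω' // f ω' = f ω} = Nat.card {ω' // g ω' = g ω} := fun ω =>
    Nat.card_congr (Equiv.subtypeEquivRight (fun ω' => h ω ω'))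
  simp only [this]

theorem ent_const {Ω : Type u} {X : Type v} [Fintype Ω] [Nonempty Ω] (z : X) :
    ent (fun _ : Ω => z) = 0 := by
  have h1 : Nat.card {_ω' : Ω // True} = Fintype.card Ω := by
    rw [← Nat.card_eq_fintype_card]
    exact Nat.card_congr (Equiv.subtypeUnivEquiv (fun _ => trivial))
  have h2 : (Fintype.card Ω : ℝ) ≠ 0 := by
    exact_mod_cast Fintype.card_ne_zero
  simp only [ent, h1]
  rw [Finset.sum_const, Finset.card_univ, nsmul_eq_mul]
  field_simp
  ring

theorem compo_ofFn {K : Type v} [Field K] (α o : K) : ∀ (n : ℕ) (c : Fin n → K),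
    compo α (List.ofFn c) o - o = ∑ k : Fin n, α ^ (k : ℕ) * ((1 - α) * (c k - o)) := by
  intro n
  induction n with
  | zero => intro c; simp [compo]
  | succ n ih =>
    intro c
    rw [List.ofFn_succ, compo_cons, Fin.sum_univ_succ]
    have h := ih (fun i => c i.succ)
    have e : c 0 + α * (compo α (List.ofFn fun i => c i.succ) o - c 0) - o =
        (1 - α) * (c 0 - o) + α * (compo α (List.ofFn fun i => c i.succ) o - o) := by ring
    rw [e, h, Finset.mul_sum]
    simp only [Fin.val_zero, pow_zero, one_mul, Fin.val_succ, pow_succ']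
    congr 1
    refine Finset.sum_congr rfl (fun k _ => ?_)
    ring

/-- The set of times selected by a letter. -/
def fs {D : ℕ} (c : Fin D → Bool) : Finset ℕ :=
  (univ.filter (fun t => c t = true)).map Fin.valEmbedding

theorem mem_fs {D : ℕ} (c : Fin D → Bool) (t : ℕ) :
    t ∈ fs c ↔ ∃ h : t < D, c ⟨t, h⟩ = true := by
  unfold fs
  rw [Finset.mem_map]
  constructor
  · rintro ⟨a, ha, rfl⟩
    rw [Finset.mem_filter] at ha
    exact ⟨a.2, ha.2⟩
  · rintro ⟨h, hc⟩
    exact ⟨⟨t, h⟩, by simp [hc], rfl⟩

section one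

variable {G : Type u} [Group G] {K : Type v} [Field K] {N : Subgroup G}

/-- The digit of the letter `J` at the place `i`. -/
theorem place_dec (R : AffRep N K) {Y : ℕ → G} (hY : ∀ t, Y t ∈ N) {o : K} {D i : ℕ}
    (hi : i < D) (hb : ∀ t < i, R.act (Y t) o = o) (J : Finset ℕ) :
    R.act (seg Y J 0 D) o - o = (R.act (seg Y J (i + 1) (D - (i + 1))) o - o) +
      (if i ∈ J then R.χ (seg Y J (i + 1) (D - (i + 1))) * (R.act (Y i) o - o) else 0) := by
  have hDe : D = (i + 1) + (D - (i + 1)) := by omega
  have hpre : R.act (seg Y J 0 i) o = o :=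
    fix_seg R hY J 0 i o (fun t _ h2 => hb t (by omega))
  have h1 : seg Y J 0 D = seg Y J (i + 1) (D - (i + 1)) * seg Y J 0 (i + 1) := by
    conv_lhs => rw [hDe]
    rw [seg_add, zero_add]
  rw [h1, R.act_mul (seg_mem hY J _ _) (seg_mem hY J _ _), seg_succ, zero_add]
  split_ifs with hiJ
  · rw [R.act_mul (hY i) (seg_mem hY J _ _), hpre, ← R.act_sub]
    ring
  · rw [one_mul, hpre, add_zero]

end one

theorem FIN1 (hCHN : CHN_stmt.{u, v}) : FIN1_stmt.{u, v} := by
  intro G _ _ K _ T R P hT
  classical
  obtain ⟨D, hs, o, a, Y, I, hD, hu, hY, hI, hcard, hfix, hχ, hb, hc, hlen⟩ := P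
  simp only
  -- the digits
  set x : ℕ → (Fin D → Bool) → K := fun i c =>
    (1 - (R.at' (hs i)).χ a) * ((R.at' (hs i)).χ (seg Y (fs c) (i + 1) (D - (i + 1))) *
      ((R.at' (hs i)).act (Y i) o - o)) with hx
  refine ⟨x, ?_, ?_⟩
  · intro i hi c
    rw [hx]
    refine mul_ne_zero ?_ (mul_ne_zero ((R.at' (hs i)).χ_ne_zero (seg_mem hY _ _ _))
      (sub_ne_zero.2 (hc i hi)))
    have := hχ i hi 1 one_pos
    rw [pow_one] at this
    exact sub_ne_zero.2 (Ne.symm this)
  intro n
  -- the blocks
  set Jf : (Fin D → Fin n → Bool) → Fin n → Finset ℕ :=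
    fun ω k => fs (fun t : Fin D => ω (Fin.rev t) k) with hJf
  set F : (Fin D → Fin n → Bool) → G :=
    fun ω => ((List.ofFn (Jf ω)).map (blk Y a D)).prod with hF
  set X : Fin D → (Fin D → Fin n → Bool) → K :=
    fun p ω => if ((Fin.rev p : Fin D) : ℕ) ∈ I then
      (R.at' (hs ((Fin.rev p : Fin D) : ℕ))).act (F ω) o - o else 0 with hX
  -- the formula for `X`
  have hform : ∀ i ∈ I, ∀ ω, (R.at' (hs i)).act (F ω) o - o =
      ∑ k : Fin n, (R.at' (hs i)).χ a ^ (k : ℕ) * ((1 - (R.at' (hs i)).χ a) *
        (((R.at' (hs i)).act (seg Y (Jf ω k) (i + 1) (D - (i + 1))) o - o) +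
          (if i ∈ Jf ω k then (R.at' (hs i)).χ (seg Y (Jf ω k) (i + 1) (D - (i + 1))) *
            ((R.at' (hs i)).act (Y i) o - o) else 0))) := by
    intro i hi ω
    have hblk : ∀ J, blk Y a D J ∈ commutator G := fun J => by
      have := seg_mem hY J 0 D
      exact (commutator G).mul_mem ((commutator G).mul_mem this hu)
        ((commutator G).inv_mem this)
    have hact : ∀ (J : Finset ℕ) z, (R.at' (hs i)).act (blk Y a D J) z =
        (R.at' (hs i)).act (seg Y J 0 D) o +
          (R.at' (hs i)).χ a * (z - (R.at' (hs i)).act (seg Y J 0 D) o) := fun J z =>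
      act_blk (R.at' (hs i)) hY hu (hfix i hi) D J z
    have e1 := (act_list_prod (R.at' (hs i)) (blk Y a D) hblk
      (fun J => (R.at' (hs i)).act (seg Y J 0 D) o) ((R.at' (hs i)).χ a) hact
      (List.ofFn (Jf ω)) o).2
    rw [hF]
    simp only
    rw [e1, List.map_ofFn, compo_ofFn]
    refine Finset.sum_congr rfl (fun k _ => ?_)
    rw [← place_dec (R.at' (hs i)) hY (hI i hi) (hb i hi)]
    rfl
  -- members of the letters
  have hmemJ : ∀ (ω : Fin D → Fin n → Bool) (k : Fin n) (t : ℕ) (ht : t < D),
      t ∈ Jf ω k ↔ ω (Fin.rev ⟨t, ht⟩) k = true := by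
    intro ω k t ht
    rw [hJf]
    simp only
    rw [mem_fs]
    exact ⟨fun ⟨_, h⟩ => h, fun h => ⟨ht, h⟩⟩
  have hnmemJ : ∀ (ω : Fin D → Fin n → Bool) (k : Fin n) (t : ℕ), D ≤ t → t ∉ Jf ω k := by
    intro ω k t ht
    rw [hJf]
    simp only
    rw [mem_fs]
    rintro ⟨h, _⟩
    omega
  have h1 := hCHN (Fin n → Bool) D G K F X (by
    intro p ω ω' h
    rw [hX]
    simp only
    rw [h]) (by
    intro p ω ω' h
    rw [hX]
    simp only
    split_ifs with hp
    swap
    · rfl
    rw [hform _ hp, hform _ hp]
    have hiff : ∀ k : Fin n, ∀ t : ℕ, ((Fin.rev p : Fin D) : ℕ) ≤ t →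
        (t ∈ Jf ω k ↔ t ∈ Jf ω' k) := by
      intro k t ht
      by_cases htD : t < D
      · rw [hmemJ ω k t htD, hmemJ ω' k t htD]
        have hle : Fin.rev (⟨t, htD⟩ : Fin D) ≤ p := by
          rw [Fin.rev_le_iff]
          exact ht
        rw [h _ hle]
      · exact ⟨fun h => absurd h (hnmemJ ω k t (by omega)),
          fun h => absurd h (hnmemJ ω' k t (by omega))⟩
    refine Finset.sum_congr rfl (fun k _ => ?_)
    have hseg := seg_congr Y (((Fin.rev p : Fin D) : ℕ) + 1) (D - (((Fin.rev p : Fin D) : ℕ) + 1))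
      (fun t ht => hiff k t (by omega))
    rw [hseg]
    simp only [hiff k _ le_rfl])
  -- the right side
  have hR : Real.log ((univ.image F).card : ℝ) ≤ Real.log ((T ^ (22 * D * n)).card : ℝ) := by
    refine Real.log_le_log ?_ ?_
    · have : 0 < (univ.image F).card := by
        rw [Finset.card_pos]
        exact ⟨F (fun _ _ => true), Finset.mem_image_of_mem _ (Finset.mem_univ _)⟩
      exact_mod_cast this
    · have : (univ.image F).card ≤ (T ^ (22 * D * n)).card := by
        refine Finset.card_le_card ?_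
        intro y hy
        rw [Finset.mem_image] at hy
        obtain ⟨ω, _, rfl⟩ := hy
        have h2 := list_prod_mem_pow (T := T) (blk Y a D) (22 * D) (List.ofFn (Jf ω))
          (fun J _ => hlen J)
        rw [List.length_ofFn] at h2
        exact h2
      exact_mod_cast this
  refine le_trans ?_ (le_trans h1 hR)
  -- the left side
  have hterm : ∀ p : Fin D, (∑ ω : Fin D → Fin n → Bool,
      ent (fun b : Fin n → Bool => X p (Function.update ω p b))) /
        (Fintype.card (Fin n → Bool) : ℝ) ^ D =
      if ((Fin.rev p : Fin D) : ℕ) ∈ I then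
        avgEnt ((R.at' (hs ((Fin.rev p : Fin D) : ℕ))).χ a) (x ((Fin.rev p : Fin D) : ℕ)) n
      else 0 := by
    intro p
    obtain ⟨i, hi⟩ : ∃ i : ℕ, i = ((Fin.rev p : Fin D) : ℕ) := ⟨_, rfl⟩
    have hiD : i < D := by rw [hi]; exact (Fin.rev p).2
    have hrevp : Fin.rev (⟨i, hiD⟩ : Fin D) = p := by
      have : (⟨i, hiD⟩ : Fin D) = Fin.rev p := Fin.ext hi
      rw [this, Fin.rev_rev]
    rw [← hi]
    split_ifs with hp
    swap
    · have hz : ∀ ω : Fin D → Fin n → Bool,
          ent (fun b : Fin n → Bool => X p (Function.update ω p b)) = 0 := by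
        intro ω
        have : (fun b : Fin n → Bool => X p (Function.update ω p b)) = fun _ => (0 : K) := by
          funext b
          rw [hX]
          simp only
          rw [← hi, if_neg hp]
        rw [this]
        exact ent_const _
      simp only [hz]
      simp
    · have hent : ∀ ω : Fin D → Fin n → Bool,
          ent (fun b : Fin n → Bool => X p (Function.update ω p b)) =
          ent (fun δ : Fin n → Bool => ∑ k : Fin n, if δ k then
            (R.at' (hs i)).χ a ^ (k : ℕ) * x i ((fun t : Fin D => ω (Fin.rev t) k)) else 0) := by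
        intro ω
        -- translation
        obtain ⟨A, hA⟩ : ∃ A : K, A = ∑ k : Fin n, (R.at' (hs i)).χ a ^ (k : ℕ) *
          ((1 - (R.at' (hs i)).χ a) *
            ((R.at' (hs i)).act (seg Y (Jf ω k) (i + 1) (D - (i + 1))) o - o)) := ⟨_, rfl⟩
        have hXe : ∀ b : Fin n → Bool, X p (Function.update ω p b) = A +
            ∑ k : Fin n, if b k then
            (R.at' (hs i)).χ a ^ (k : ℕ) * x i ((fun t : Fin D => ω (Fin.rev t) k)) else 0 := by
          intro b
          rw [hX]
          simp only
          rw [← hi, if_pos hp, hform i hp, hA, ← Finset.sum_add_distrib]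
          refine Finset.sum_congr rfl (fun k _ => ?_)
          have hseg : seg Y (Jf (Function.update ω p b) k) (i + 1) (D - (i + 1)) =
              seg Y (Jf ω k) (i + 1) (D - (i + 1)) := by
            refine seg_congr Y _ _ (fun t ht => ?_)
            by_cases htD : t < D
            · rw [hmemJ _ k t htD, hmemJ ω k t htD]
              have hne : Fin.rev (⟨t, htD⟩ : Fin D) ≠ p := by
                intro h
                rw [← hrevp] at h
                have := Fin.rev_injective h
                have := congrArg Fin.val this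
                simp only at this
                omega
              rw [Function.update_of_ne hne]
            · exact ⟨fun h => absurd h (hnmemJ _ k t (by omega)),
                fun h => absurd h (hnmemJ ω k t (by omega))⟩
          have hmem : i ∈ Jf (Function.update ω p b) k ↔ b k = true := by
            rw [hmemJ _ k i hiD, hrevp, Function.update_self]
          rw [hseg]
          simp only [hmem]
          rw [mul_add, mul_add]
          congr 1
          split_ifs with hbk
          · rw [hx]
          · simp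
        refine ent_eq_of_fiber _ _ (fun b b' => ?_)
        rw [hXe b, hXe b']
        exact add_right_inj A
      simp only [hent]
      rw [avgEnt]
      have hcardB : (Fintype.card (Fin n → Bool) : ℝ) ^ D =
          (Fintype.card (Fin D → Bool) : ℝ) ^ n := by
        simp only [Fintype.card_fun, Fintype.card_bool, Fintype.card_fin]
        push_cast
        rw [← pow_mul, ← pow_mul, mul_comm]
      rw [hcardB]
      congr 1
      -- the bijection
      set e : (Fin D → Fin n → Bool) ≃ (Fin n → Fin D → Bool) :=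
        { toFun := fun ω k t => ω (Fin.rev t) k
          invFun := fun c p k => c k (Fin.rev p)
          left_inv := fun ω => by
            funext p k
            simp only [Fin.rev_rev]
          right_inv := fun c => by
            funext k t
            simp only [Fin.rev_rev] } with he
      exact Fintype.sum_equiv e _ _ (fun ω => rfl)
  simp only [hterm]
  refine le_of_eq ?_
  have hrev : ∑ p : Fin D, (if ((Fin.rev p : Fin D) : ℕ) ∈ I then
        avgEnt ((R.at' (hs ((Fin.rev p : Fin D) : ℕ))).χ a) (x ((Fin.rev p : Fin D) : ℕ)) n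
      else 0) = ∑ p : Fin D, (if (p : ℕ) ∈ I then
        avgEnt ((R.at' (hs (p : ℕ))).χ a) (x (p : ℕ)) n else 0) :=
    Fintype.sum_equiv Fin.revPerm _ _ (fun p => rfl)
  rw [hrev, Fin.sum_univ_eq_sum_range (fun i : ℕ => if i ∈ I then
        avgEnt ((R.at' (hs i)).χ a) (x i) n else 0) D, ← Finset.sum_filter]
  refine Finset.sum_congr ?_ (fun i _ => rfl)
  ext i
  rw [Finset.mem_filter, Finset.mem_range]
  exact ⟨fun h => ⟨hI i h, h⟩, fun h => h.2⟩

end Pool.Agent.Helper13.GA
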